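import Mathlib

open Finset Nat

set_option autoImplicit false

namespace Pool.Agent.Results.MP_b74c76_co.NoLimit

/-- `s_Z(n) mod 2`: the parity of the number of summands of the Zeckendorf representation. -/
def sZ (n : ℕ) : ZMod 2 := ((Nat.zeckendorf n).length : ZMod 2)

/-- The `N`-th maximum order complexity of a binary sequence `s`: the least `k` such that
`s (i + k) = f (s i, ..., s (i + k - 1))` for all `0 ≤ i ≤ N - k - 1` and some `f`. -/
noncomputable def maxOrder (s : ℕ → ZMod 2) (N : ℕ) : ℕ :=
  sInf {k | ∃ f : (Fin k → ZMod 2) → ZMod 2, ∀ i, i + k < N → s (i + k) = f (fun t => s (i + t))}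

/-! ### Zeckendorf representations and the shift -/

lemma rep_iff (l : List ℕ) : l.IsZeckendorfRep ↔
    l.Pairwise (fun a b => b + 2 ≤ a) ∧ ∀ a ∈ l, 2 ≤ a := by
  have : IsTrans ℕ (fun a b => b + 2 ≤ a) := ⟨fun a b c h1 h2 => by omega⟩
  unfold List.IsZeckendorfRep
  rw [List.isChain_iff_pairwise, List.pairwise_append]
  simp

lemma zrep (n : ℕ) : (zeckendorf n).Pairwise (fun a b => b + 2 ≤ a) ∧
    ∀ a ∈ zeckendorf n, 2 ≤ a := (rep_iff _).1 (isZeckendorfRep_zeckendorf n)

/-- shift of the Zeckendorf representation -/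
def pos (n : ℕ) : ℕ := ((zeckendorf n).map (fun i => fib (i + 1))).sum

lemma zeck_pos (n : ℕ) : zeckendorf (pos n) = (zeckendorf n).map (fun i => i + 1) := by
  have h : ((zeckendorf n).map (fun i => i + 1)).IsZeckendorfRep := by
    rw [rep_iff, List.pairwise_map]
    refine ⟨(zrep n).1.imp (fun h => by omega), ?_⟩
    intro a ha
    rw [List.mem_map] at ha
    obtain ⟨b, hb, rfl⟩ := ha
    have := (zrep n).2 b hb
    omega
  have := zeckendorf_sum_fib h
  rw [List.map_map] at this
  exact this

lemma zeck_pos_succ (n : ℕ) (h2 : 2 ∉ zeckendorf n) :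
    zeckendorf (pos n + 1) = (zeckendorf n).map (fun i => i + 1) ++ [2] := by
  have h : ((zeckendorf n).map (fun i => i + 1) ++ [2]).IsZeckendorfRep := by
    rw [rep_iff, List.pairwise_append, List.pairwise_map]
    refine ⟨⟨(zrep n).1.imp (fun h => by omega), by simp, ?_⟩, ?_⟩
    · intro a ha b hb
      rw [List.mem_map] at ha
      obtain ⟨c, hc, rfl⟩ := ha
      have h3 := (zrep n).2 c hc
      have h4 : c ≠ 2 := fun h => h2 (h ▸ hc)
      simp only [List.mem_singleton] at hb
      omega
    · intro a ha
      rw [List.mem_append, List.mem_map] at ha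
      rcases ha with ⟨b, hb, rfl⟩ | ha
      · have := (zrep n).2 b hb
        omega
      · simp only [List.mem_singleton] at ha
        omega
  have := zeckendorf_sum_fib h
  rw [List.map_append, List.sum_append, List.map_map] at this
  simp only [List.map_cons, List.map_nil, List.sum_cons, List.sum_nil, fib_two, add_zero] at this
  exact this

lemma exists_pos (m : ℕ) (h2 : 2 ∉ zeckendorf m) : ∃ n, pos n = m := by
  have h3 : ∀ a ∈ zeckendorf m, 3 ≤ a := by
    intro a ha
    have h4 := (zrep m).2 a ha
    have h5 : a ≠ 2 := fun h => h2 (h ▸ ha)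
    omega
  have h : ((zeckendorf m).map (fun i => i - 1)).IsZeckendorfRep := by
    rw [rep_iff, List.pairwise_map]
    refine ⟨?_, ?_⟩
    · refine List.Pairwise.imp_of_mem ?_ (zrep m).1
      intro a b ha hb hab
      have := h3 b hb
      omega
    · intro a ha
      rw [List.mem_map] at ha
      obtain ⟨b, hb, rfl⟩ := ha
      have := h3 b hb
      omega
  refine ⟨(((zeckendorf m).map (fun i => i - 1)).map fib).sum, ?_⟩
  unfold pos
  rw [zeckendorf_sum_fib h, List.map_map]
  conv_rhs => rw [← sum_zeckendorf_fib m]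
  congr 1
  apply List.map_congr_left
  intro a ha
  have := h3 a ha
  simp only [Function.comp_apply]
  congr 1
  omega

lemma exists_pos_succ (m : ℕ) (h2 : 2 ∈ zeckendorf m) :
    ∃ n, pos n + 1 = m ∧ 2 ∉ zeckendorf n := by
  obtain ⟨l, r, hlr⟩ := List.append_of_mem h2
  have hp := (zrep m).1
  have hq := (zrep m).2
  rw [hlr, List.pairwise_append, List.pairwise_cons] at hp
  have hr : r = [] := by
    rw [List.eq_nil_iff_forall_not_mem]
    intro a ha
    have h1 := hp.2.1.1 a ha
    have h3 := hq a (by rw [hlr]; simp [ha])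
    omega
  subst hr
  have h3 : ∀ a ∈ l, 4 ≤ a := fun a ha => hp.2.2 a ha 2 (by simp)
  have h : (l.map (fun i => i - 1)).IsZeckendorfRep := by
    rw [rep_iff, List.pairwise_map]
    refine ⟨?_, ?_⟩
    · refine List.Pairwise.imp_of_mem ?_ hp.1
      intro a b ha hb hab
      have := h3 b hb
      omega
    · intro a ha
      rw [List.mem_map] at ha
      obtain ⟨b, hb, rfl⟩ := ha
      have := h3 b hb
      omega
  refine ⟨((l.map (fun i => i - 1)).map fib).sum, ?_, ?_⟩
  · unfold pos
    rw [zeckendorf_sum_fib h, List.map_map]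
    conv_rhs => rw [← sum_zeckendorf_fib m, hlr]
    rw [List.map_append, List.sum_append]
    have : (l.map ((fun i => fib (i + 1)) ∘ fun i => i - 1)) = l.map fib := by
      apply List.map_congr_left
      intro a ha
      have := h3 a ha
      simp only [Function.comp_apply]
      congr 1
      omega
    rw [this]
    simp
  · rw [zeckendorf_sum_fib h, List.mem_map]
    rintro ⟨a, ha, h4⟩
    have := h3 a ha
    omega

/-! ### real estimate of the shift -/

lemma sum_psi (u : ℝ) (hu0 : 0 < u) (hu1 : u < 1) (hu : u ^ 2 = 1 - u) (l : List ℕ)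
    (hp : l.Pairwise (fun a b => b + 2 ≤ a)) (h2 : ∀ a ∈ l, 2 ≤ a) (m : ℕ) (hm : 1 ≤ m)
    (hlm : ∀ a ∈ l, a ≤ m) :
    u ^ (m + 1) - u ^ 2 ≤ (l.map (fun i => (-u) ^ i)).sum ∧
    (l.map (fun i => (-u) ^ i)).sum ≤ u - u ^ (m + 1) := by
  induction l generalizing m with
  | nil =>
    simp only [List.map_nil, List.sum_nil]
    have h1 : u ^ (m + 1) ≤ u ^ 2 := pow_le_pow_of_le_one hu0.le hu1.le (by omega)
    have h3 : u ^ 2 ≤ u := by nlinarith
    constructor <;> linarith
  | cons a l ih =>
    rw [List.pairwise_cons] at hp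
    have ha2 := h2 a (by simp)
    have ham := hlm a (by simp)
    have hmono : u ^ (m + 1) ≤ u ^ (a + 1) := pow_le_pow_of_le_one hu0.le hu1.le (by omega)
    rw [List.map_cons, List.sum_cons]
    rcases Nat.lt_or_ge a 3 with h3 | h3
    · have ha : a = 2 := by omega
      have hl : l = [] := by
        rw [List.eq_nil_iff_forall_not_mem]
        intro b hb
        have := hp.1 b hb
        have := h2 b (by simp [hb])
        omega
      subst ha hl
      simp only [List.map_nil, List.sum_nil]
      have h5 : u ^ (2 + 1) = u - u ^ 2 := by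
        calc u ^ (2 + 1) = u * u ^ 2 := by ring
          _ = u * (1 - u) := by rw [hu]
          _ = u - u ^ 2 := by ring
      have h6 : (-u) ^ 2 = u ^ 2 := by ring
      rw [h6]
      constructor <;> nlinarith
    · obtain ⟨c, rfl⟩ : ∃ c, a = c + 2 := ⟨a - 2, by omega⟩
      obtain ⟨i1, i2⟩ := ih hp.2 (fun b hb => h2 b (by simp [hb])) c (by omega)
        (fun b hb => by have := hp.1 b hb; omega)
      have hc : 0 < u ^ (c + 1) := by positivity
      have e1 : u ^ (c + 2) = u * u ^ (c + 1) := by ring
      have e2 : u ^ (c + 2 + 1) = u ^ (c + 1) - u * u ^ (c + 1) := by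
        calc u ^ (c + 2 + 1) = u ^ (c + 1) * u ^ 2 := by ring
          _ = u ^ (c + 1) * (1 - u) := by rw [hu]
          _ = _ := by ring
      have e3 : 0 < u * u ^ (c + 1) := by positivity
      rw [e2] at hmono
      rcases Nat.even_or_odd (c + 2) with he | ho
      · rw [he.neg_pow, e1]
        constructor <;> linarith
      · rw [ho.neg_pow, e1]
        constructor <;> linarith

lemma fib_psi (g : ℝ) (hg : g ^ 2 = g + 1) (i : ℕ) :
    (fib (i + 1) : ℝ) - g * fib i = (-(g - 1)) ^ i := by
  induction i with
  | zero => simp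
  | succ i ih =>
    rw [fib_add_two, pow_succ, ← ih]
    push_cast
    linear_combination (-(fib i : ℝ)) * hg

lemma pos_real (g : ℝ) (hg : g ^ 2 = g + 1) (h1 : 1 < g) (n : ℕ) :
    g * n - (2 - g) ≤ pos n ∧ (pos n : ℝ) ≤ g * n + (g - 1) := by
  have hu0 : (0 : ℝ) < g - 1 := by linarith
  have hu1 : g - 1 < 1 := by nlinarith
  have hu : (g - 1) ^ 2 = 1 - (g - 1) := by linear_combination hg
  obtain ⟨h1, h2⟩ := sum_psi (g - 1) hu0 hu1 hu (zeckendorf n) (zrep n).1 (zrep n).2
    ((zeckendorf n).sum + 1) (by omega) (fun a ha => by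
      have := List.single_le_sum (fun _ _ => Nat.zero_le _) a ha
      omega)
  have hpw : (0 : ℝ) < (g - 1) ^ ((zeckendorf n).sum + 1 + 1) := by positivity
  have key : ∀ l : List ℕ, (((l.map (fun i => fib (i + 1))).sum : ℕ) : ℝ) -
      g * (((l.map fib).sum : ℕ) : ℝ) = (l.map (fun i => (-(g - 1)) ^ i)).sum := by
    intro l
    induction l with
    | nil => simp
    | cons a l ih =>
      simp only [List.map_cons, List.sum_cons]
      rw [← ih, ← fib_psi g hg]
      push_cast
      ring
  have hk := key (zeckendorf n)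
  rw [sum_zeckendorf_fib] at hk
  have hk' : (pos n : ℝ) - g * n = ((zeckendorf n).map (fun i => (-(g - 1)) ^ i)).sum := hk
  constructor <;> linarith

lemma exists_golden : ∃ g : ℝ, g ^ 2 = g + 1 ∧ 1 < g ∧ g < 1.619 ∧ 1.618 < g ∧
    g = Real.goldenRatio := by
  refine ⟨Real.goldenRatio, Real.goldenRatio_sq, Real.one_lt_goldenRatio, ?_, ?_, rfl⟩
  · have h1 := Real.goldenRatio_sq
    have h2 := Real.goldenRatio_pos
    generalize Real.goldenRatio = g at *
    nlinarith
  · have h1 := Real.goldenRatio_sq
    have h2 := Real.goldenRatio_pos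
    generalize Real.goldenRatio = g at *
    nlinarith

lemma pos_diff (n k : ℕ) (g : ℝ) (hg : g ^ 2 = g + 1) (h1 : 1 < g) :
    g * k - 1 ≤ (pos (n + k) : ℝ) - pos n ∧ (pos (n + k) : ℝ) - pos n ≤ g * k + 1 := by
  have a1 := pos_real g hg h1 n
  have a2 := pos_real g hg h1 (n + k)
  push_cast at a2
  constructor <;> nlinarith

lemma pos_succ_bounds (n : ℕ) : pos n < pos (n + 1) ∧ pos (n + 1) ≤ pos n + 2 := by
  obtain ⟨g, hg, h1, h2, h3, _⟩ := exists_golden
  have h := pos_diff n 1 g hg h1
  push_cast at h
  constructor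
  · have : (pos n : ℝ) < pos (n + 1) := by linarith
    exact_mod_cast this
  · have : (pos (n + 1) : ℝ) < pos n + 3 := by linarith
    have : pos (n + 1) < pos n + 3 := by exact_mod_cast this
    omega

lemma pos_strictMono : StrictMono pos := strictMono_nat_of_lt_succ (fun n => (pos_succ_bounds n).1)

/-! ### the four-letter word -/

/-- type of a position: does the Zeckendorf representation use `fib 2`? -/
def typ (n : ℕ) : Bool := decide (2 ∈ zeckendorf n)

def par (n : ℕ) : Bool := decide ((zeckendorf n).length % 2 = 1)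

def W (n : ℕ) : Bool × Bool := (typ n, par n)

lemma typ_pos (n : ℕ) : typ (pos n) = false := by
  unfold typ
  rw [zeck_pos, decide_eq_false_iff_not, List.mem_map]
  rintro ⟨a, ha, h⟩
  have := (zrep n).2 a ha
  omega

lemma par_pos (n : ℕ) : par (pos n) = par n := by
  unfold par
  rw [zeck_pos, List.length_map]

lemma typ_pos_succ (n : ℕ) (h : typ n = false) : typ (pos n + 1) = true := by
  unfold typ at *
  rw [decide_eq_false_iff_not] at h
  rw [zeck_pos_succ n h, decide_eq_true_iff]
  simp

lemma par_pos_succ (n : ℕ) (h : typ n = false) : par (pos n + 1) = !par n := by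
  unfold typ at h
  rw [decide_eq_false_iff_not] at h
  unfold par
  rw [zeck_pos_succ n h, List.length_append, List.length_map, List.length_singleton]
  rcases Nat.mod_two_eq_zero_or_one (zeckendorf n).length with h1 | h1
  · simp [h1, Nat.add_mod]
  · simp [h1, Nat.add_mod]

lemma pos_succ (n : ℕ) : pos (n + 1) = pos n + (if typ n then 1 else 2) := by
  obtain ⟨b1, b2⟩ := pos_succ_bounds n
  by_cases h : typ n = true
  · rw [if_pos h]
    by_contra hne
    have h2 : pos (n + 1) = pos n + 2 := by omega
    by_cases h3 : 2 ∈ zeckendorf (pos n + 1)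
    · obtain ⟨k, hk, hk2⟩ := exists_pos_succ _ h3
      have : k = n := pos_strictMono.injective (by omega)
      subst this
      unfold typ at h
      rw [decide_eq_true_iff] at h
      exact hk2 h
    · obtain ⟨k, hk⟩ := exists_pos _ h3
      have h4 : n < k := by
        rw [← pos_strictMono.lt_iff_lt]; omega
      have h5 : k < n + 1 := by
        rw [← pos_strictMono.lt_iff_lt]; omega
      omega
  · rw [if_neg h]
    rw [Bool.not_eq_true] at h
    by_contra hne
    have h2 : pos (n + 1) = pos n + 1 := by omega
    have h3 := typ_pos (n + 1)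
    rw [h2, typ_pos_succ n h] at h3
    exact Bool.noConfusion h3

lemma cases_pos (m : ℕ) : (∃ n, m = pos n ∧ typ m = false) ∨
    (∃ n, m = pos n + 1 ∧ typ n = false ∧ typ m = true) := by
  by_cases h : 2 ∈ zeckendorf m
  · right
    obtain ⟨n, hn, h2⟩ := exists_pos_succ m h
    exact ⟨n, hn.symm, by simp [typ, h2], by simp [typ, h]⟩
  · left
    obtain ⟨n, hn⟩ := exists_pos m h
    exact ⟨n, hn.symm, by simp [typ, h]⟩

/-- the substitution `a ↦ ab, b ↦ c, c ↦ cd, d ↦ a` with `a = (false, false)`,
`b = (true, true)`, `c = (false, true)`, `d = (true, false)` -/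
def sig (x : Bool × Bool) : List (Bool × Bool) :=
  if x.1 then [(false, x.2)] else [(false, x.2), (true, !x.2)]

def win (k n : ℕ) : List (Bool × Bool) := (List.range k).map (fun t => W (n + t))

lemma win_length (k n : ℕ) : (win k n).length = k := by simp [win]

lemma win_add (k m n : ℕ) : win (k + m) n = win k n ++ win m (n + k) := by
  unfold win
  rw [List.range_add, List.map_append, List.map_map]
  congr 1
  apply List.map_congr_left
  intro t _
  simp [add_assoc]

lemma W_pos (n : ℕ) : W (pos n) = (false, par n) := by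
  unfold W
  rw [typ_pos, par_pos]

lemma sig_W (n : ℕ) : sig (W n) = win (pos (n + 1) - pos n) (pos n) := by
  rw [pos_succ]
  unfold sig W
  by_cases h : typ n = true
  · simp only [h, if_true]
    rw [Nat.add_sub_cancel_left]
    simp [win, W_pos]
  · rw [Bool.not_eq_true] at h
    simp only [h]
    rw [if_neg (by simp), if_neg (by simp), Nat.add_sub_cancel_left]
    have : win 2 (pos n) = [W (pos n), W (pos n + 1)] := by
      simp [win, List.range_succ]
    rw [this, W_pos]
    unfold W
    rw [typ_pos_succ n h, par_pos_succ n h]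

lemma sig_win (k n : ℕ) : (win k n).flatMap sig = win (pos (n + k) - pos n) (pos n) := by
  induction k with
  | zero => simp [win]
  | succ k ih =>
    rw [win_add k 1 n, List.flatMap_append, ih]
    have h1 : win 1 (n + k) = [W (n + k)] := by simp [win]
    rw [h1, List.flatMap_singleton, sig_W]
    have h2 : pos n ≤ pos (n + k) := pos_strictMono.monotone (by omega)
    have h3 : pos (n + k) ≤ pos (n + k + 1) := pos_strictMono.monotone (by omega)
    have h4 : pos (n + (k + 1)) - pos n =
        (pos (n + k) - pos n) + (pos (n + k + 1) - pos (n + k)) := by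
      rw [← add_assoc]; omega
    rw [h4, win_add]
    congr 2
    omega

lemma pos_zero : pos 0 = 0 := by simp [pos]

def X : ℕ → List (Bool × Bool)
  | 0 => [(false, false)]
  | j + 1 => (X j).flatMap sig

lemma win_X (j : ℕ) : win (X j).length 0 = X j := by
  induction j with
  | zero => simp [X, win, W, typ, par]
  | succ j ih =>
    have h := sig_win (X j).length 0
    rw [ih, pos_zero] at h
    have h2 : (X (j + 1)) = win (pos (0 + (X j).length) - 0) 0 := h
    have h3 : (X (j + 1)).length = pos (0 + (X j).length) - 0 := by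
      rw [h2, win_length]
    rw [h3, ← h2]

lemma win_take (k m n : ℕ) (h : k ≤ m) : (win m n).take k = win k n := by
  obtain ⟨r, rfl⟩ := Nat.exists_eq_add_of_le h
  rw [win_add, List.take_left' (win_length k n)]

lemma win_drop (k m n : ℕ) : (win (k + m) n).drop k = win m (n + k) := by
  rw [win_add, List.drop_left' (win_length k n)]

def T4 : List (List (Bool × Bool)) :=
  [[(false, false), (true, true), (false, true), (false, true)],
   [(true, true), (false, true), (false, true), (true, false)],
   [(false, true), (false, true), (true, false), (false, true)],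
   [(false, true), (true, false), (false, true), (true, false)],
   [(true, false), (false, true), (true, false), (false, false)],
   [(false, true), (true, false), (false, false), (false, true)],
   [(true, false), (false, false), (false, true), (true, false)],
   [(false, false), (false, true), (true, false), (false, false)],
   [(false, true), (true, false), (false, false), (false, false)],
   [(true, false), (false, false), (false, false), (true, true)],
   [(false, false), (false, false), (true, true), (false, true)],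
   [(false, false), (true, true), (false, true), (true, false)],
   [(true, true), (false, true), (true, false), (false, false)],
   [(false, false), (false, false), (true, true), (false, false)],
   [(false, false), (true, true), (false, false), (true, true)],
   [(true, true), (false, false), (true, true), (false, true)],
   [(false, true), (false, true), (true, false), (false, false)],
   [(false, false), (true, true), (false, true), (false, false)],
   [(true, true), (false, true), (false, false), (true, true)],
   [(false, true), (false, false), (true, true), (false, true)],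
   [(false, true), (true, false), (false, false), (true, true)],
   [(true, false), (false, false), (true, true), (false, true)]]

lemma T4_closed : ∀ u ∈ T4, (u.flatMap sig).take 4 ∈ T4 ∧
    (u.head? ≠ some (true, true) → u.head? ≠ some (true, false) →
      ((u.flatMap sig).drop 1).take 4 ∈ T4) := by
  decide +kernel

lemma T4_decode : ∀ u ∈ T4, ∀ v ∈ T4, u.map Prod.snd = v.map Prod.snd → u[1]? = v[1]? := by
  decide +kernel

lemma win4_mem (n : ℕ) : win 4 n ∈ T4 := by
  induction n using Nat.strong_induction_on with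
  | _ n ih =>
    have hlen : ∀ k, 6 ≤ pos (k + 4) - pos k := by
      intro k
      obtain ⟨g, hg, h1, h2, h3, _⟩ := exists_golden
      have h := (pos_diff k 4 g hg h1).1
      push_cast at h
      have h5 : (pos k : ℝ) + 5 < pos (k + 4) := by linarith
      have h6 : pos k + 5 < pos (k + 4) := by exact_mod_cast h5
      omega
    rcases Nat.eq_zero_or_pos n with rfl | hn
    · have h := win_X 3
      have h2 : (X 3).length = 5 := by decide
      rw [h2] at h
      have h3 := win_take 4 5 0 (by omega)
      rw [h] at h3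
      rw [← h3]
      decide
    · rcases cases_pos n with ⟨k, hk, _⟩ | ⟨k, hk, hk2, _⟩
      · have hkn : k < n := by
          have h1 : k ≤ pos k := pos_strictMono.le_apply
          rcases Nat.lt_or_ge k n with h | h
          · exact h
          · exfalso
            have hkk : pos k = k := by omega
            have h0 : pos 0 + 1 < pos 1 := by
              rw [pos_succ 0]
              simp [typ]
            have : ∀ m, 1 ≤ m → m < pos m := by
              intro m hm
              induction m, hm using Nat.le_induction with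
              | base => omega
              | succ m hm ih2 => have := (pos_succ_bounds m).1; omega
            have := this k (by omega)
            omega
        have h1 := (T4_closed _ (ih k hkn)).1
        rw [sig_win, win_take 4 _ _ (by have := hlen k; omega)] at h1
        rw [hk]
        exact h1
      · have hkn : k < n := by
          have h1 : k ≤ pos k := pos_strictMono.le_apply
          omega
        have h1 := (T4_closed _ (ih k hkn)).2
        have hh : (win 4 k).head? = some (W k) := by simp [win, List.range_succ_eq_map]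
        rw [hh] at h1
        have h2 := h1 (by simp [W, hk2]) (by simp [W, hk2])
        rw [sig_win] at h2
        obtain ⟨r, hr⟩ : ∃ r, pos (k + 4) - pos k = 1 + (4 + r) := ⟨pos (k + 4) - pos k - 5, by
          have := hlen k; omega⟩
        rw [hr, win_drop, win_take 4 _ _ (by omega)] at h2
        rw [hk]
        exact h2

lemma decode (n m : ℕ) (h : ∀ t < 4, par (n + t) = par (m + t)) : W (n + 1) = W (m + 1) := by
  have h1 := T4_decode _ (win4_mem n) _ (win4_mem m) (by
    unfold win
    rw [List.map_map, List.map_map]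
    apply List.map_congr_left
    intro t ht
    rw [List.mem_range] at ht
    exact h t ht)
  simpa [win] using h1

/-! ### repeated words with different successors -/

def Bad (i i' l : ℕ) : Prop :=
  i < i' ∧ (∀ t < l, W (i + t) = W (i' + t)) ∧ W (i + l) ≠ W (i' + l)

lemma win_eq_iff (k n m : ℕ) : win k n = win k m ↔ ∀ t < k, W (n + t) = W (m + t) := by
  unfold win
  rw [List.map_inj_left]
  simp only [List.mem_range]

lemma agree (p p' T : ℕ) (h : ∀ t < T, W (p + t) = W (p' + t)) :
    pos (p + T) - pos p = pos (p' + T) - pos p' ∧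
    ∀ u < pos (p + T) - pos p, W (pos p + u) = W (pos p' + u) := by
  have h1 := (win_eq_iff T p p').2 h
  have h2 := sig_win T p
  rw [h1, sig_win] at h2
  have h3 := congrArg List.length h2
  rw [win_length, win_length] at h3
  refine ⟨h3.symm, ?_⟩
  rw [h3] at h2
  rw [← win_eq_iff]
  exact h2.symm

lemma typ_pos_add (n : ℕ) : typ (pos n + 1) = !typ n := by
  by_cases h : typ n = true
  · rw [h]
    have := pos_succ n
    rw [if_pos h] at this
    rw [← this, typ_pos]
    rfl
  · rw [Bool.not_eq_true] at h
    rw [typ_pos_succ n h, h]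
    rfl

lemma desub_core (p p' l : ℕ) (hp : p < p') (h : ∀ t < l, W (pos p + t) = W (pos p' + t))
    (hne : W (pos p + l) ≠ W (pos p' + l)) :
    ∃ l', Bad p p' l' ∧ pos (p' + l') ≤ pos p' + l ∧ l ≤ pos (p + l') - pos p + 1 := by
  classical
  have hex : ∃ t, W (p + t) ≠ W (p' + t) := by
    by_contra hc
    push Not at hc
    obtain ⟨_, h2⟩ := agree p p' (l + 1) (fun t _ => hc t)
    apply hne
    apply h2
    have h3 : ∀ k, k ≤ pos (p + k) - pos p := by
      intro k
      induction k with
      | zero => simp
      | succ k ih =>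
        have h4 := (pos_succ_bounds (p + k)).1
        have h5 : pos p ≤ pos (p + k) := pos_strictMono.monotone (by omega)
        rw [← add_assoc]
        omega
    have := h3 (l + 1)
    omega
  set l' := Nat.find hex with hl'
  have h1 : W (p + l') ≠ W (p' + l') := Nat.find_spec hex
  have h2 : ∀ t < l', W (p + t) = W (p' + t) := by
    intro t ht
    have := Nat.find_min hex ht
    simpa using this
  obtain ⟨hD, hD2⟩ := agree p p' l' h2
  have hm1 : pos p ≤ pos (p + l') := pos_strictMono.monotone (by omega)
  have hm2 : pos p' ≤ pos (p' + l') := pos_strictMono.monotone (by omega)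
  have hge : pos (p + l') - pos p ≤ l := by
    by_contra hc
    exact hne (hD2 l (by omega))
  refine ⟨l', ⟨hp, h2, h1⟩, by omega, ?_⟩
  by_contra hc
  have e1 := h (pos (p + l') - pos p) (by omega)
  have e2 := h (pos (p + l') - pos p + 1) (by omega)
  have e3 : pos p + (pos (p + l') - pos p) = pos (p + l') := by omega
  have e4 : pos p' + (pos (p + l') - pos p) = pos (p' + l') := by omega
  rw [← add_assoc, ← add_assoc, e3, e4] at e2
  rw [e3, e4, W_pos, W_pos] at e1
  have e5 := (Prod.ext_iff.1 e1).2
  have e6 : typ (pos (p + l') + 1) = typ (pos (p' + l') + 1) := (Prod.ext_iff.1 e2).1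
  rw [typ_pos_add, typ_pos_add] at e6
  apply h1
  unfold W
  simp only at e5
  rw [e5, Bool.not_inj e6]

lemma desub (i i' l : ℕ) (hl : 1 ≤ l) (h : Bad i i' l) :
    ∃ p p' l', Bad p p' l' ∧ pos (p' + l') ≤ i' + l ∧ l ≤ pos (p + l') - pos p + 1 := by
  obtain ⟨h1, h2, h3⟩ := h
  have h0 := h2 0 (by omega)
  rw [add_zero, add_zero] at h0
  have ht : typ i = typ i' := (Prod.ext_iff.1 h0).1
  have hpr : par i = par i' := (Prod.ext_iff.1 h0).2
  rcases cases_pos i with ⟨p, hp, hp1⟩ | ⟨p, hp, hp1, hp2⟩
  · rcases cases_pos i' with ⟨p', hp', _⟩ | ⟨p', hp', _, hp3⟩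
    · subst hp hp'
      obtain ⟨l', a, b, c⟩ := desub_core p p' l (pos_strictMono.lt_iff_lt.1 h1) h2 h3
      exact ⟨p, p', l', a, b, c⟩
    · rw [ht, hp3] at hp1; exact absurd hp1 (by simp)
  · rcases cases_pos i' with ⟨p', hp', hp3⟩ | ⟨p', hp', hp3, _⟩
    · rw [ht, hp3] at hp2; exact absurd hp2 (by simp)
    · subst hp hp'
      rw [par_pos_succ p hp1, par_pos_succ p' hp3] at hpr
      have hpr' := Bool.not_inj hpr
      obtain ⟨l', a, b, c⟩ := desub_core p p' (l + 1)
        (pos_strictMono.lt_iff_lt.1 (by omega)) (by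
          intro t ht
          rcases Nat.eq_zero_or_pos t with rfl | ht0
          · rw [add_zero, add_zero, W_pos, W_pos, hpr']
          · obtain ⟨r, rfl⟩ := Nat.exists_eq_add_of_le' ht0
            have := h2 r (by omega)
            rw [show pos p + (r + 1) = pos p + 1 + r by ring,
              show pos p' + (r + 1) = pos p' + 1 + r by ring]
            exact this) (by
          rw [show pos p + (l + 1) = pos p + 1 + l by ring,
              show pos p' + (l + 1) = pos p' + 1 + l by ring]
          exact h3)
      exact ⟨p, p', l', a, by omega, by omega⟩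

def base_check : Bool :=
  (List.range 38).all fun i' => (List.range i').all fun i =>
    (!((List.range 9).all fun t => (X 8)[i + t]? == (X 8)[i' + t]?)) ||
      ((List.range (47 - i')).all fun t => (X 8)[i + t]? == (X 8)[i' + t]?)

lemma base_check_true : base_check = true := by decide +kernel

lemma X8_get (n : ℕ) (hn : n < 55) : (X 8)[n]? = some (W n) := by
  have h := win_X 8
  have h2 : (X 8).length = 55 := by decide +kernel
  rw [h2] at h
  rw [← h]
  simp [win, hn]

lemma base (i i' l : ℕ) (h : Bad i i' l) (hl : 9 ≤ l) : 47 ≤ i' + l := by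
  by_contra hc
  push Not at hc
  obtain ⟨h1, h2, h3⟩ := h
  have hb := base_check_true
  unfold base_check at hb
  rw [List.all_eq_true] at hb
  have hb1 := hb i' (List.mem_range.2 (by omega))
  rw [List.all_eq_true] at hb1
  have hb2 := hb1 i (List.mem_range.2 h1)
  rw [Bool.or_eq_true, Bool.not_eq_true', List.all_eq_true] at hb2
  rcases hb2 with hb2 | hb2
  · rw [List.all_eq_false] at hb2
    obtain ⟨t, ht, hb3⟩ := hb2
    rw [List.mem_range] at ht
    apply hb3
    rw [X8_get _ (by omega), X8_get _ (by omega), h2 t (by omega)]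
    simp
  · have hb3 := hb2 l (List.mem_range.2 (by omega))
    rw [X8_get _ (by omega), X8_get _ (by omega)] at hb3
    apply h3
    simpa using hb3

lemma main_bound (g : ℝ) (hg : g ^ 2 = g + 1) (h1 : 1 < g) (hg2 : g < 2) (j : ℕ) :
    ∀ i i' l : ℕ, Bad i i' l → g ^ j * (9 + 2 * g) - 2 * g ≤ l →
      g ^ j * (48 - g) + (g - 1) ≤ (i' : ℝ) + l := by
  induction j with
  | zero =>
    intro i i' l h hl
    rw [pow_zero, one_mul] at hl ⊢
    have h2 : (9 : ℝ) ≤ l := by linarith
    have h3 : 9 ≤ l := by exact_mod_cast h2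
    have h4 := base i i' l h h3
    have h5 : (47 : ℝ) ≤ (i' : ℝ) + l := by exact_mod_cast h4
    linarith
  | succ j ih =>
    intro i i' l h hl
    have hpow : 1 ≤ g ^ (j + 1) := one_le_pow₀ h1.le
    have hl1 : (1 : ℝ) ≤ l := by nlinarith
    have hl1' : 1 ≤ l := by exact_mod_cast hl1
    obtain ⟨p, p', l', hb, hb1, hb2⟩ := desub i i' l hl1' h
    have hd := (pos_diff p l' g hg h1).2
    have hm : pos p ≤ pos (p + l') := pos_strictMono.monotone (by omega)
    have hle : (l : ℝ) ≤ (pos (p + l') : ℝ) - pos p + 1 := by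
      have : ((l : ℕ) : ℝ) ≤ ((pos (p + l') - pos p + 1 : ℕ) : ℝ) := by exact_mod_cast hb2
      rw [Nat.cast_add, Nat.cast_sub hm, Nat.cast_one] at this
      exact this
    have hl' : g ^ j * (9 + 2 * g) - 2 * g ≤ l' := by
      have h6 : g * (g ^ j * (9 + 2 * g) - 2 * g) ≤ g * l' := by
        have e1 : g ^ (j + 1) * (9 + 2 * g) - 2 * g =
            g * (g ^ j * (9 + 2 * g) - 2 * g) + 2 := by
          linear_combination 2 * hg
        linarith
      exact le_of_mul_le_mul_left h6 (by linarith)
    have h7 := ih p p' l' hb hl'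
    have h8 := (pos_real g hg h1 (p' + l')).1
    push_cast at h8
    have h9 : ((pos (p' + l') : ℕ) : ℝ) ≤ (i' : ℝ) + l := by exact_mod_cast hb1
    have h10 : g * (g ^ j * (48 - g) + (g - 1)) ≤ g * ((p' : ℝ) + l') :=
      mul_le_mul_of_nonneg_left h7 (by linarith)
    have e2 : g ^ (j + 1) * (48 - g) + (g - 1) =
        g * (g ^ j * (48 - g) + (g - 1)) - (2 - g) := by
      linear_combination (-1) * hg
    linarith

/-! ### maximum order complexity -/

lemma sZ_par (n m : ℕ) : sZ n = sZ m ↔ par n = par m := by
  unfold sZ par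
  rw [ZMod.natCast_eq_natCast_iff', decide_eq_decide]
  omega

lemma maxOrder_le (s : ℕ → ZMod 2) (N k : ℕ)
    (h : ∀ i i' : ℕ, i < i' → i' + k < N → (∀ t < k, s (i + t) = s (i' + t)) →
      s (i + k) = s (i' + k)) : maxOrder s N ≤ k := by
  classical
  apply Nat.sInf_le
  refine ⟨fun v => if hv : ∃ i, i + k < N ∧ (fun t : Fin k => s (i + t)) = v then
    s (hv.choose + k) else 0, ?_⟩
  intro i hi
  have hv : ∃ i', i' + k < N ∧ (fun t : Fin k => s (i' + t)) = (fun t : Fin k => s (i + t)) :=
    ⟨i, hi, rfl⟩
  simp only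
  rw [dif_pos hv]
  obtain ⟨hc1, hc2⟩ := hv.choose_spec
  have hc3 : ∀ t < k, s (hv.choose + t) = s (i + t) := fun t ht => congrFun hc2 ⟨t, ht⟩
  rcases lt_trichotomy i hv.choose with h1 | h1 | h1
  · exact h i _ h1 hc1 (fun t ht => (hc3 t ht).symm)
  · rw [← h1]
  · exact (h _ i h1 hi hc3).symm

lemma maxOrder_bound (g : ℝ) (hg : g ^ 2 = g + 1) (h1 : 1 < g) (hg2 : g < 2) (j N : ℕ)
    (hN : (N : ℝ) ≤ g ^ j * (48 - g) + (g - 1)) :
    (maxOrder sZ N : ℝ) ≤ g ^ j * (9 + 2 * g) + 4 := by
  classical
  set k := ⌈g ^ j * (9 + 2 * g) - 2 * g⌉₊ + 3 with hk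
  have hle : maxOrder sZ N ≤ k := by
    apply maxOrder_le
    intro i i' hii hN' hag
    by_contra hne
    have hpar : ∀ t < k, par (i + t) = par (i' + t) := fun t ht => (sZ_par _ _).1 (hag t ht)
    have hpne : par (i + k) ≠ par (i' + k) := fun h => hne ((sZ_par _ _).2 h)
    have hW : ∀ t, t + 3 < k → W (i + 1 + t) = W (i' + 1 + t) := by
      intro t ht
      have := decode (i + t) (i' + t) (by
        intro r hr
        rw [add_assoc, add_assoc]
        exact hpar _ (by omega))
      rw [show i + 1 + t = i + t + 1 by ring, show i' + 1 + t = i' + t + 1 by ring]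
      exact this
    have hex : ∃ t, W (i + 1 + t) ≠ W (i' + 1 + t) := by
      refine ⟨k - 1, fun h => hpne ?_⟩
      have e1 : i + 1 + (k - 1) = i + k := by omega
      have e2 : i' + 1 + (k - 1) = i' + k := by omega
      rw [e1, e2] at h
      exact (Prod.ext_iff.1 h).2
    set l := Nat.find hex with hl
    have hl1 : W (i + 1 + l) ≠ W (i' + 1 + l) := Nat.find_spec hex
    have hl2 : ∀ t < l, W (i + 1 + t) = W (i' + 1 + t) := by
      intro t ht
      have := Nat.find_min hex ht
      simpa using this
    have hl3 : k ≤ l + 3 := by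
      by_contra hc
      exact hl1 (hW l (by omega))
    have hl4 : l ≤ k - 1 := by
      apply Nat.find_min'
      intro h
      have e1 : i + 1 + (k - 1) = i + k := by omega
      have e2 : i' + 1 + (k - 1) = i' + k := by omega
      rw [e1, e2] at h
      exact hpne (Prod.ext_iff.1 h).2
    have hbad : Bad (i + 1) (i' + 1) l := ⟨by omega, hl2, hl1⟩
    have hlen : g ^ j * (9 + 2 * g) - 2 * g ≤ l := by
      have h5 : ⌈g ^ j * (9 + 2 * g) - 2 * g⌉₊ ≤ l := by omega
      exact (Nat.le_ceil _).trans (by exact_mod_cast h5)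
    have h6 := main_bound g hg h1 hg2 j _ _ _ hbad hlen
    have h7 : ((i' + 1 + l : ℕ) : ℝ) < N := by
      have : i' + 1 + l < N := by omega
      exact_mod_cast this
    push_cast at h6 h7
    linarith
  have hpow : 1 ≤ g ^ j := one_le_pow₀ h1.le
  have h8 : ((maxOrder sZ N : ℕ) : ℝ) ≤ (k : ℝ) := by exact_mod_cast hle
  have h9 : ((⌈g ^ j * (9 + 2 * g) - 2 * g⌉₊ : ℕ) : ℝ) < g ^ j * (9 + 2 * g) - 2 * g + 1 :=
    Nat.ceil_lt_add_one (by nlinarith)
  rw [hk] at h8
  push_cast at h8
  linarith

/-- **Negative answer to Q1 of MP_b74c76_co.** `M(S_Z, N) / N` does not converge to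
`1 / (1 + φ²)`. -/
theorem result : ¬ Filter.Tendsto (fun N : ℕ => (maxOrder sZ N : ℝ) / N) Filter.atTop
    (nhds (1 / (1 + Real.goldenRatio ^ 2))) := by
  intro hT
  obtain ⟨g, hg, h1, h2, h3, h4⟩ := exists_golden
  rw [← h4] at hT
  have hlim : (0.27 : ℝ) < 1 / (1 + g ^ 2) := by
    rw [hg, lt_div_iff₀ (by linarith)]
    nlinarith
  have hev := hT.eventually (lt_mem_nhds hlim)
  rw [Filter.eventually_atTop] at hev
  obtain ⟨N₀, hN₀⟩ := hev
  have hgrow : Filter.Tendsto (fun j : ℕ => g ^ j) Filter.atTop Filter.atTop :=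
    tendsto_pow_atTop_atTop_of_one_lt h1
  obtain ⟨j, hj⟩ := (hgrow.eventually_ge_atTop (100 + (N₀ : ℝ))).exists
  set N := ⌊g ^ j * (48 - g) + (g - 1)⌋₊ with hN
  have hpos : 0 ≤ g ^ j * (48 - g) + (g - 1) := by
    have : 0 ≤ g ^ j := by positivity
    nlinarith
  have hN1 : (N : ℝ) ≤ g ^ j * (48 - g) + (g - 1) := Nat.floor_le hpos
  have hN2 : g ^ j * (48 - g) + (g - 1) < N + 1 := Nat.lt_floor_add_one _
  have hb := maxOrder_bound g hg h1 (by linarith) j N hN1
  have hN0 : (N₀ : ℝ) ≤ N := by nlinarith
  have hN0' : N₀ ≤ N := by exact_mod_cast hN0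
  have h5 := hN₀ N hN0'
  have hNpos : (0 : ℝ) < N := by nlinarith [Nat.cast_nonneg (α := ℝ) N₀]
  rw [lt_div_iff₀ hNpos] at h5
  nlinarith [Nat.cast_nonneg (α := ℝ) N₀]

end Pool.Agent.Results.MP_b74c76_co.NoLimit
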